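import Mathlib

set_option autoImplicit false

/-!
# Direct forms of the union-closed sets conjecture: counting lemmas
-/

namespace Pool.Agent.H177.UC

open Finset

universe u v w

/-- Double counting. -/
theorem double_count {L I : Type*} [Finite L] [Finite I] [Nonempty I] [LE L] (M : I → L)
    (D : Set L)
    (hD : ∀ i, Nat.card {H : L // H ∈ D ∧ H ≤ M i} ≤ Nat.card {H : L // H ∈ D ∧ ¬ H ≤ M i})
    (hO : ∀ H : L, H ∉ D → 2 * Nat.card {i : I // H ≤ M i} ≤ Nat.card I) :
    ∃ i, 2 * Nat.card {H : L // H ≤ M i} ≤ Nat.card L := by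
  classical
  have := Fintype.ofFinite L
  have := Fintype.ofFinite I
  simp only [Nat.card_eq_fintype_card, Fintype.card_subtype] at hD hO ⊢
  by_contra hcon
  push Not at hcon
  have h1 : ∑ _i : I, Fintype.card L < ∑ i : I, 2 * (univ.filter fun H : L => H ≤ M i).card :=
    sum_lt_sum_of_nonempty univ_nonempty fun i _ => hcon i
  have h2 : ∀ i : I, (univ.filter fun H : L => H ≤ M i).card =
      (univ.filter fun H : L => H ∈ D ∧ H ≤ M i).card +
      (univ.filter fun H : L => H ∉ D ∧ H ≤ M i).card := by
    intro i
    rw [← card_union_of_disjoint]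
    · congr 1
      ext H
      simp only [mem_filter, mem_univ, true_and, mem_union]
      tauto
    · rw [disjoint_filter]
      tauto
  have h3 : ∀ i : I, 2 * (univ.filter fun H : L => H ∈ D ∧ H ≤ M i).card ≤
      (univ.filter fun H : L => H ∈ D).card := by
    intro i
    have h4 : (univ.filter fun H : L => H ∈ D).card =
        (univ.filter fun H : L => H ∈ D ∧ H ≤ M i).card +
        (univ.filter fun H : L => H ∈ D ∧ ¬ H ≤ M i).card := by
      rw [← card_union_of_disjoint]
      · congr 1
        ext H
        simp only [mem_filter, mem_univ, true_and, mem_union]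
        tauto
      · rw [disjoint_filter]
        tauto
    have := hD i
    omega
  have h5 : ∑ i : I, 2 * (univ.filter fun H : L => H ∉ D ∧ H ≤ M i).card ≤
      ∑ _i : I, (univ.filter fun H : L => H ∉ D).card := by
    have e1 : ∑ i : I, 2 * (univ.filter fun H : L => H ∉ D ∧ H ≤ M i).card =
        ∑ H ∈ univ.filter (fun H : L => H ∉ D), 2 * (univ.filter fun i : I => H ≤ M i).card := by
      rw [← mul_sum, ← mul_sum]
      congr 1
      have e2 : ∀ i : I, (univ.filter fun H : L => H ∉ D ∧ H ≤ M i) =
          (univ.filter fun H : L => H ∉ D).filter (fun H => H ≤ M i) := by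
        intro i
        ext H
        simp
      simp only [e2, card_filter _ (univ.filter fun H : L => H ∉ D), card_filter _ (univ : Finset I)]
      rw [sum_comm]
    rw [e1]
    have e3 : ∑ _i : I, (univ.filter fun H : L => H ∉ D).card =
        ∑ H ∈ univ.filter (fun H : L => H ∉ D), Fintype.card I := by
      simp [mul_comm]
    rw [e3]
    apply sum_le_sum
    intro H hH
    exact hO H (by simpa using hH)
  have h6 : Fintype.card L = (univ.filter fun H : L => H ∈ D).card +
      (univ.filter fun H : L => H ∉ D).card := by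
    rw [← card_univ, card_filter_add_card_filter_not]
  have h7 : ∑ i : I, 2 * (univ.filter fun H : L => H ≤ M i).card ≤ ∑ _i : I, Fintype.card L := by
    calc ∑ i : I, 2 * (univ.filter fun H : L => H ≤ M i).card
        = ∑ i : I, 2 * (univ.filter fun H : L => H ∈ D ∧ H ≤ M i).card +
          ∑ i : I, 2 * (univ.filter fun H : L => H ∉ D ∧ H ≤ M i).card := by
          rw [← sum_add_distrib]
          apply sum_congr rfl
          intro i _
          rw [h2 i]
          ring
      _ ≤ ∑ _i : I, (univ.filter fun H : L => H ∈ D).card +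
          ∑ _i : I, (univ.filter fun H : L => H ∉ D).card :=
          add_le_add (sum_le_sum fun i _ => h3 i) h5
      _ = ∑ _i : I, Fintype.card L := by
          rw [← sum_add_distrib]
          apply sum_congr rfl
          intro i _
          exact h6.symm
  omega

/-- In a finite lattice an inf-irreducible element has a least element above it. -/
theorem exists_cover {L : Type*} [Lattice L] [Finite L] {M : L} (hM : InfIrred M) :
    ∃ c, M < c ∧ ∀ b, M < b → c ≤ b := by
  obtain ⟨h1, h2⟩ := hM
  have hne : ({b : L | M < b}).Nonempty := by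
    by_contra hcon
    apply h1
    intro b hb
    rcases hb.eq_or_lt with h | h
    · exact h.ge
    · exact absurd ⟨b, h⟩ hcon
  obtain ⟨c, hc⟩ := Set.Finite.exists_minimal (Set.toFinite {b : L | M < b}) hne
  refine ⟨c, hc.prop, fun b hb => ?_⟩
  have hcM : M < c := hc.prop
  have h3 : M ≤ c ⊓ b := le_inf hcM.le hb.le
  rcases h3.eq_or_lt with h | h
  · rcases h2 h.symm with h4 | h4
    · exact absurd h4 hcM.ne'
    · exact absurd h4 hb.ne'
  · have := hc.le_of_le h inf_le_left
    exact this.trans inf_le_right

/-- From a lattice to the families which are isomorphic to it. -/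
theorem union_closed_of_infIrred {L : Type*} [Lattice L] [Finite L] {M : L} (hM : InfIrred M)
    (hcard : 2 * Nat.card {H : L // H ≤ M} ≤ Nat.card L) {α : Type*} [DecidableEq α]
    (F : Finset (Finset α)) (hU : ∀ X ∈ F, ∀ Y ∈ F, X ∪ Y ∈ F) (e : {X // X ∈ F} ≃o L) :
    ∃ x, F.card ≤ 2 * (F.filter fun X => x ∈ X).card := by
  classical
  obtain ⟨c, hMc, hc⟩ := exists_cover hM
  have h1 : (e.symm M).1 ⊂ (e.symm c).1 := by
    have : e.symm M < e.symm c := e.symm.lt_iff_lt.mpr hMc
    exact this
  obtain ⟨i, hi, hiM⟩ := Finset.exists_of_ssubset h1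
  refine ⟨i, ?_⟩
  have key : ∀ X : {X // X ∈ F}, i ∉ X.1 → e X ≤ M := by
    intro X hX
    by_contra hcon
    have hU' := hU X.1 X.2 (e.symm M).1 (e.symm M).2
    have h2 : M ≤ e ⟨_, hU'⟩ := by
      rw [← e.symm_apply_le]
      exact (Finset.subset_union_right : (e.symm M).1 ⊆ X.1 ∪ (e.symm M).1)
    have h3 : e X ≤ e ⟨_, hU'⟩ := by
      rw [e.le_iff_le]
      exact (Finset.subset_union_left : X.1 ⊆ X.1 ∪ (e.symm M).1)
    have h4 : M < e ⟨_, hU'⟩ := by
      rcases h2.eq_or_lt with h | h
      · exact absurd (h ▸ h3) hcon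
      · exact h
    have h5 := hc _ h4
    rw [← e.symm_apply_le] at h5
    have h6 : (e.symm c).1 ⊆ X.1 ∪ (e.symm M).1 := h5
    have := h6 hi
    rw [Finset.mem_union] at this
    tauto
  have h2 : (F.filter fun X => i ∉ X).card ≤ Nat.card {H : L // H ≤ M} := by
    have := Fintype.ofFinite L
    rw [Nat.card_eq_fintype_card, Fintype.card_subtype]
    apply Finset.card_le_card_of_injOn
      (fun X => if h : X ∈ F then e ⟨X, h⟩ else M)
    · intro X hX
      simp only [Finset.coe_filter, Set.mem_setOf_eq] at hX
      simp only [Finset.coe_filter, Finset.mem_univ, true_and, Set.mem_setOf_eq, dif_pos hX.1]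
      exact key ⟨X, hX.1⟩ hX.2
    · intro X hX Y hY hXY
      simp only [Finset.coe_filter, Set.mem_setOf_eq] at hX hY
      simp only [dif_pos hX.1, dif_pos hY.1, EmbeddingLike.apply_eq_iff_eq, Subtype.mk.injEq] at hXY
      exact hXY
  have h3 : F.card = Nat.card L := by
    rw [← Nat.card_congr e.toEquiv, Nat.card_eq_fintype_card, Fintype.card_coe]
  have h4 : (F.filter fun X => i ∈ X).card + (F.filter fun X => ¬ i ∈ X).card = F.card :=
    Finset.card_filter_add_card_filter_not _
  omega

/-- An additive subgroup which is not everything contains at most half of the elements. -/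
theorem two_mul_card_le {A : Type*} [AddGroup A] [Finite A] (K : AddSubgroup A) (hK : K ≠ ⊤) :
    2 * Nat.card K ≤ Nat.card A := by
  have h1 := K.card_mul_index
  have h2 : K.index ≠ 0 := AddSubgroup.index_ne_zero_of_finite
  have h3 : K.index ≠ 1 := fun h => hK (AddSubgroup.index_eq_one.mp h)
  have h4 : 2 ≤ K.index := by omega
  rw [← h1, mul_comm]
  exact Nat.mul_le_mul_left _ h4

end Pool.Agent.H177.UC
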