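import Mathlib
import Pool.Agent.H177.UC.Basic

set_option autoImplicit false

/-!
# Averaging over the hyperplanes of an abelian ideal
-/

namespace Pool.Agent.H177.UC

open Finset

/-- If functionals whose kernels are invariant under the operators in `τ` span the dual space and
`φ ≠ 0` is one of them, then some common eigenvector of the operators is not in the kernel
of `φ`. -/
theorem exists_eigenvector {k V : Type*} [Field k] [AddCommGroup V] [Module k V]
    [FiniteDimensional k V] (τ : Set (V →ₗ[k] V)) (E : Set (Module.Dual k V))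
    (hE : ∀ φ ∈ E, ∀ T ∈ τ, ∀ v, φ v = 0 → φ (T v) = 0)
    (hspan : Submodule.span k E = ⊤) {φ : Module.Dual k V} (hφ : φ ∈ E) (h0 : φ ≠ 0) :
    ∃ x : V, φ x ≠ 0 ∧ ∀ T ∈ τ, ∃ c : k, T x = c • x := by
  classical
  have hli : LinearIndepOn k id ({φ} : Set (Module.Dual k V)) :=
    LinearIndepOn.singleton (v := id) (R := k) h0
  obtain ⟨b, hbE, hφb, hEb, hbli⟩ :=
    exists_linearIndepOn_id_extension hli (Set.singleton_subset_iff.mpr hφ)
  have hbs : (⊤ : Submodule k (Module.Dual k V)) ≤ Submodule.span k (Set.range ((↑) : b → Module.Dual k V)) := by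
    rw [Subtype.range_coe, ← hspan]
    exact Submodule.span_le.mpr hEb
  let B : Module.Basis b k (Module.Dual k V) := Module.Basis.mk hbli hbs
  have hφb' : φ ∈ b := hφb rfl
  let x : V := (Module.evalEquiv k V).symm (B.coord ⟨φ, hφb'⟩)
  have hx : ∀ ψ : Module.Dual k V, ψ x = B.coord ⟨φ, hφb'⟩ ψ := by
    intro ψ
    have := Module.evalEquiv_toLinearMap k V
    have h2 : Module.evalEquiv k V x = B.coord ⟨φ, hφb'⟩ :=
      (Module.evalEquiv k V).apply_symm_apply _
    have h3 := congrArg (fun f => f ψ) h2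
    simpa using h3
  have hB : ∀ ψ (h : ψ ∈ b), B.coord ⟨φ, hφb'⟩ ψ = if ψ = φ then 1 else 0 := by
    intro ψ h
    have h1 : B ⟨ψ, h⟩ = ψ := by simp [B]
    have h2 : B.coord ⟨φ, hφb'⟩ (B ⟨ψ, h⟩) = if ψ = φ then 1 else 0 := by
      rw [Module.Basis.coord_apply, Module.Basis.repr_self, Finsupp.single_apply]
      simp [Subtype.ext_iff]
    rwa [h1] at h2
  refine ⟨x, ?_, ?_⟩
  · rw [hx, hB φ hφb', if_pos rfl]
    exact one_ne_zero
  · intro T hT
    refine ⟨φ (T x), ?_⟩
    rw [← sub_eq_zero, ← Module.forall_dual_apply_eq_zero_iff k]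
    intro ψ
    have hker : Submodule.span k b ≤
        LinearMap.ker ((Module.Dual.eval k V) (T x - φ (T x) • x)) := by
      rw [Submodule.span_le]
      intro χ hχ
      have hgoal : χ (T x) - φ (T x) * χ x = 0 → χ ∈ LinearMap.ker
          ((Module.Dual.eval k V) (T x - φ (T x) • x)) := by
        intro h
        rw [LinearMap.mem_ker, Module.Dual.eval_apply, map_sub, map_smul, smul_eq_mul]
        exact h
      apply hgoal
      rw [hx, hB χ hχ]
      by_cases h : χ = φ
      · rw [if_pos h, h]
        ring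
      · rw [if_neg h]
        have h1 : χ x = 0 := by rw [hx, hB χ hχ, if_neg h]
        rw [hE χ (hbE hχ) T hT x h1]
        ring
    have htop : ψ ∈ Submodule.span k b := by
      have : Submodule.span k b = ⊤ := by
        rw [eq_top_iff]
        simpa using hbs
      rw [this]
      trivial
    have := hker htop
    simpa [LinearMap.mem_ker, Module.Dual.eval_apply] using this

/-- The averaging theorem. -/
theorem exists_infIrred {L k V : Type*} [Lattice L] [Finite L] [Field k] [AddCommGroup V]
    [Module k V] [Finite V] [Nontrivial V]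
    (t : L → Submodule k V) (ht : Monotone t) (τ : L → Set (V →ₗ[k] V)) (N : L)
    (hN : ∀ H, t H = ⊤ → N ≤ H) (hNt : t N = ⊤)
    (hex : ∀ φ : Module.Dual k V, φ ≠ 0 → ∃ M, t M = LinearMap.ker φ)
    (hinv : ∀ H M, H ≤ M → ∀ T ∈ τ H, ∀ v ∈ t M, T v ∈ t M)
    (hjoin : ∀ H, ∀ x : V, (∀ T ∈ τ H, ∃ c : k, T x = c • x) →
      ∃ H', τ H' = τ H ∧ x ∈ t H' ∧ ∀ M, H ≤ M → x ∉ t M → H' ⊓ M = H) :
    ∃ M : L, InfIrred M ∧ 2 * Nat.card {H // H ≤ M} ≤ Nat.card L := by
  classical
  have : FiniteDimensional k V := Module.Finite.of_finite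
  have : Finite (Module.Dual k V) := by
    obtain ⟨v, hv⟩ := exists_ne (0 : V)
    have : Finite k := Finite.of_injective (fun c : k => c • v) (smul_left_injective k hv)
    exact Module.finite_of_finite k
  -- maximal elements with a given trace
  have hmax : ∀ φ : {φ : Module.Dual k V // φ ≠ 0}, ∃ M, t M = LinearMap.ker φ.1 ∧
      ∀ M', M < M' → t M' = ⊤ := by
    rintro ⟨φ, hφ⟩
    obtain ⟨M, hM⟩ := Set.Finite.exists_maximal (Set.toFinite {M : L | t M = LinearMap.ker φ})
      (hex φ hφ)
    refine ⟨M, hM.prop, fun M' hM' => ?_⟩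
    have h1 : t M = LinearMap.ker φ := hM.prop
    have h2 : LinearMap.ker φ ≤ t M' := h1 ▸ ht hM'.le
    have h3 : t M' ≠ LinearMap.ker φ := fun h => hM.not_gt h hM'
    have h4 : IsCoatom (LinearMap.ker φ) :=
      LinearMap.isCoatom_ker_of_surjective (LinearMap.surjective hφ)
    exact h4.2 _ (lt_of_le_of_ne h2 (Ne.symm h3))
  choose M hM1 hM2 using hmax
  have hirr : ∀ φ, InfIrred (M φ) := by
    intro φ
    have hnt : t (M φ) ≠ ⊤ := by
      rw [hM1]
      intro h
      exact φ.2 (LinearMap.ker_eq_top.mp h)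
    have hNM : ¬ N ≤ M φ := by
      intro h
      apply hnt
      rw [eq_top_iff, ← hNt]
      exact ht h
    constructor
    · intro h
      exact hNM ((le_sup_right : N ≤ M φ ⊔ N).trans (h le_sup_left))
    · intro b c hbc
      by_contra hcon
      push Not at hcon
      have hb : M φ < b := lt_of_le_of_ne (hbc ▸ inf_le_left) (Ne.symm hcon.1)
      have hc : M φ < c := lt_of_le_of_ne (hbc ▸ inf_le_right) (Ne.symm hcon.2)
      apply hNM
      rw [← hbc]
      exact le_inf (hN _ (hM2 φ b hb)) (hN _ (hM2 φ c hc))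
  -- the functionals with invariant kernel
  let E : L → Set (Module.Dual k V) := fun H => {φ | ∀ T ∈ τ H, ∀ v, φ v = 0 → φ (T v) = 0}
  have hE : ∀ H (φ : {φ : Module.Dual k V // φ ≠ 0}), H ≤ M φ → φ.1 ∈ E H := by
    intro H φ h T hT v hv
    have h1 : v ∈ t (M φ) := by rw [hM1]; exact hv
    have h2 := hinv H (M φ) h T hT v h1
    rw [hM1] at h2
    exact h2
  have hneI : Nonempty {φ : Module.Dual k V // φ ≠ 0} := by
    obtain ⟨φ, hφ⟩ := exists_ne (0 : Module.Dual k V)
    exact ⟨⟨φ, hφ⟩⟩
  obtain ⟨φ, hφ⟩ := double_count M {H | Submodule.span k (E H) = ⊤} (by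
    intro φ
    have hstep : ∀ H : {H : L // H ∈ {H | Submodule.span k (E H) = ⊤} ∧ H ≤ M φ},
        ∃ H' : L, (Submodule.span k (E H') = ⊤ ∧ ¬ H' ≤ M φ) ∧ H' ⊓ M φ = H.1 := by
      rintro ⟨H, hH1, hH2⟩
      obtain ⟨x, hx1, hx2⟩ := exists_eigenvector (τ H) (E H) (fun φ hφ => hφ) hH1
        (hE H φ hH2) φ.2
      have hx3 : x ∉ t (M φ) := by
        rw [hM1]
        exact hx1
      obtain ⟨H', h1, h2, h3⟩ := hjoin H x hx2
      refine ⟨H', ⟨?_, ?_⟩, h3 _ hH2 hx3⟩
      · have : E H' = E H := by
          simp only [E, h1]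
        rw [this]
        exact hH1
      · intro h
        exact hx3 (ht h h2)
    choose f hf1 hf2 using hstep
    apply Nat.card_le_card_of_injective
      (fun H => (⟨f H, hf1 H⟩ : {H : L // H ∈ {H | Submodule.span k (E H) = ⊤} ∧ ¬ H ≤ M φ}))
    intro H1 H2 h12
    have h : f H1 = f H2 := congrArg Subtype.val h12
    apply Subtype.ext
    rw [← hf2 H1, ← hf2 H2, h]) (by
    intro H hH
    have hH' : Submodule.span k (E H) ≠ ⊤ := hH
    have h1 : Nat.card {φ : {φ : Module.Dual k V // φ ≠ 0} // H ≤ M φ} + 1 ≤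
        Nat.card (Submodule.span k (E H)).toAddSubgroup := by
      have : Nat.card (Option {φ : {φ : Module.Dual k V // φ ≠ 0} // H ≤ M φ}) ≤
          Nat.card (Submodule.span k (E H)).toAddSubgroup := by
        apply Nat.card_le_card_of_injective (fun o => match o with
          | none => ⟨0, (Submodule.span k (E H)).zero_mem⟩
          | some ψ => ⟨ψ.1.1, Submodule.subset_span (hE H ψ.1 ψ.2)⟩)
        intro a b hab
        match a, b with
        | none, none => rfl
        | none, some ψ =>
          exfalso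
          exact ψ.1.2 (congrArg Subtype.val hab).symm
        | some ψ, none =>
          exfalso
          exact ψ.1.2 (congrArg Subtype.val hab)
        | some ψ, some χ =>
          have : ψ.1.1 = χ.1.1 := by
            have h5 := congrArg Subtype.val hab
            exact h5
          congr 1
          exact Subtype.ext (Subtype.ext this)
      rwa [Finite.card_option] at this
    have h2 := two_mul_card_le (Submodule.span k (E H)).toAddSubgroup (by
      intro h
      apply hH'
      rw [eq_top_iff]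
      intro y _
      have : y ∈ (Submodule.span k (E H)).toAddSubgroup := by rw [h]; trivial
      exact this)
    have h3 : Nat.card {φ : Module.Dual k V // φ ≠ 0} + 1 = Nat.card (Module.Dual k V) := by
      rw [← Finite.card_option]
      apply Nat.card_congr
      exact Equiv.optionSubtypeNe (0 : Module.Dual k V)
    omega)
  exact ⟨M φ, hirr φ, hφ⟩

end Pool.Agent.H177.UC
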