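import Mathlib
import Pool.Agent.H177.UC.Avg

set_option autoImplicit false

/-!
# Subalgebras of finite nonassociative algebras with a nonzero ideal of square zero
-/

namespace Pool.Agent.H177.UC

open Finset

universe u v w

section

variable {S : Type u} {A : Type v} [CommRing S] [NonUnitalNonAssocRing A] [Module S A]
  [IsScalarTower S A A] [SMulCommClass S A A] [Finite A]

/-- `V` is a vector space over a residue field of `S` embedded in `A` as an ideal
of square zero. -/
theorem algebra_vector {k V : Type*} [Field k] [AddCommGroup V] [Module k V] [Finite V]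
    [Nontrivial V] (f : S →+* k) (hf : Function.Surjective f) (j : V →+ A)
    (hj : Function.Injective j) (hs : ∀ (s : S) v, j (f s • v) = s • j v)
    (hl : ∀ a v, ∃ w, j w = a * j v) (hr : ∀ a v, ∃ w, j w = j v * a)
    (h0 : ∀ v w, j v * j w = 0) :
    ∃ M : NonUnitalSubalgebra S A, InfIrred M ∧
      2 * Nat.card {H // H ≤ M} ≤ Nat.card (NonUnitalSubalgebra S A) := by
  classical
  have : Finite (NonUnitalSubalgebra S A) :=
    Finite.of_injective (fun H => (H : Set A)) SetLike.coe_injective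
  let t : NonUnitalSubalgebra S A → Submodule k V := fun H =>
    { carrier := {v | j v ∈ H}
      add_mem' := fun {a b} ha hb => by
        change j (a + b) ∈ H
        rw [map_add]
        exact add_mem ha hb
      zero_mem' := by
        change j 0 ∈ H
        rw [map_zero]
        exact zero_mem H
      smul_mem' := fun c v hv => by
        change j (c • v) ∈ H
        obtain ⟨s, rfl⟩ := hf c
        rw [hs]
        exact SMulMemClass.smul_mem s hv }
  have ht : ∀ (H : NonUnitalSubalgebra S A) (v : V), v ∈ t H ↔ j v ∈ H := fun H v => Iff.rfl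
  let τ : NonUnitalSubalgebra S A → Set (V →ₗ[k] V) := fun H =>
    {T | ∃ h ∈ H, (∀ v, j (T v) = h * j v) ∨ (∀ v, j (T v) = j v * h)}
  have hL : ∀ h : A, ∃ T : V →ₗ[k] V, ∀ v, j (T v) = h * j v := by
    intro h
    choose g hg using hl h
    refine ⟨{ toFun := g, map_add' := ?_, map_smul' := ?_ }, hg⟩
    · intro a b
      apply hj
      rw [hg, map_add, map_add, hg, hg, mul_add]
    · intro c a
      obtain ⟨s, rfl⟩ := hf c
      apply hj
      rw [hg, hs, RingHom.id_apply, hs, hg, mul_smul_comm]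
  have hR : ∀ h : A, ∃ T : V →ₗ[k] V, ∀ v, j (T v) = j v * h := by
    intro h
    choose g hg using hr h
    refine ⟨{ toFun := g, map_add' := ?_, map_smul' := ?_ }, hg⟩
    · intro a b
      apply hj
      rw [hg, map_add, map_add, hg, hg, add_mul]
    · intro c a
      obtain ⟨s, rfl⟩ := hf c
      apply hj
      rw [hg, hs, RingHom.id_apply, hs, hg, smul_mul_assoc]
  let N : NonUnitalSubalgebra S A :=
    { carrier := Set.range j
      add_mem' := by
        rintro _ _ ⟨v, rfl⟩ ⟨w, rfl⟩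
        exact ⟨v + w, map_add _ _ _⟩
      zero_mem' := ⟨0, map_zero _⟩
      mul_mem' := by
        rintro _ _ ⟨v, rfl⟩ ⟨w, rfl⟩
        exact ⟨0, by rw [map_zero, h0]⟩
      smul_mem' := by
        rintro s _ ⟨v, rfl⟩
        exact ⟨f s • v, hs s v⟩ }
  have hNmem : ∀ y, y ∈ N ↔ ∃ v, j v = y := fun y => Iff.rfl
  refine exists_infIrred (k := k) (V := V) t ?_ τ N ?_ ?_ ?_ ?_ ?_
  · intro H K hHK v hv
    exact hHK hv
  · intro H hH x hx
    obtain ⟨v, rfl⟩ := (hNmem x).mp hx
    have : v ∈ t H := by rw [hH]; trivial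
    exact this
  · rw [eq_top_iff]
    intro v _
    exact (hNmem _).mpr ⟨v, rfl⟩
  · intro φ _
    let M : NonUnitalSubalgebra S A :=
      { carrier := {y | ∃ v, φ v = 0 ∧ j v = y}
        add_mem' := by
          rintro _ _ ⟨v, hv, rfl⟩ ⟨w, hw, rfl⟩
          exact ⟨v + w, by rw [map_add, hv, hw, add_zero], map_add _ _ _⟩
        zero_mem' := ⟨0, map_zero _, map_zero _⟩
        mul_mem' := by
          rintro _ _ ⟨v, hv, rfl⟩ ⟨w, hw, rfl⟩
          exact ⟨0, map_zero _, by rw [map_zero, h0]⟩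
        smul_mem' := by
          rintro s _ ⟨v, hv, rfl⟩
          exact ⟨f s • v, by rw [map_smul, hv, smul_zero], hs s v⟩ }
    refine ⟨M, ?_⟩
    ext v
    constructor
    · rintro ⟨w, hw, hwv⟩
      rw [LinearMap.mem_ker, ← hj hwv]
      exact hw
    · intro hv
      exact ⟨v, hv, rfl⟩
  · intro H M hHM T hT v hv
    obtain ⟨h, hh, hTh | hTh⟩ := hT
    · rw [ht] at hv ⊢
      rw [hTh]
      exact mul_mem (hHM hh) hv
    · rw [ht] at hv ⊢
      rw [hTh]
      exact mul_mem hv (hHM hh)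
  · intro H x hx
    have hxl : ∀ h ∈ H, ∃ s : S, h * j x = s • j x := by
      intro h hh
      obtain ⟨T, hT⟩ := hL h
      obtain ⟨c, hc⟩ := hx T ⟨h, hh, Or.inl hT⟩
      obtain ⟨s, rfl⟩ := hf c
      refine ⟨s, ?_⟩
      rw [← hT, hc, hs]
    have hxr : ∀ h ∈ H, ∃ s : S, j x * h = s • j x := by
      intro h hh
      obtain ⟨T, hT⟩ := hR h
      obtain ⟨c, hc⟩ := hx T ⟨h, hh, Or.inr hT⟩
      obtain ⟨s, rfl⟩ := hf c
      refine ⟨s, ?_⟩
      rw [← hT, hc, hs]
    let H' : NonUnitalSubalgebra S A :=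
      { carrier := {y | ∃ h ∈ H, ∃ s : S, y = h + s • j x}
        add_mem' := by
          rintro _ _ ⟨h, hh, s, rfl⟩ ⟨h', hh', s', rfl⟩
          refine ⟨h + h', add_mem hh hh', s + s', ?_⟩
          rw [add_smul]
          abel
        zero_mem' := ⟨0, zero_mem H, 0, by rw [zero_smul, add_zero]⟩
        mul_mem' := by
          rintro _ _ ⟨h, hh, s, rfl⟩ ⟨h', hh', s', rfl⟩
          obtain ⟨r, hr⟩ := hxl h hh
          obtain ⟨r', hr'⟩ := hxr h' hh'
          refine ⟨h * h', mul_mem hh hh', s' * r + s * r', ?_⟩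
          rw [add_mul, mul_add, mul_add, smul_mul_smul_comm, h0, smul_zero, add_zero,
            mul_smul_comm, hr, smul_mul_assoc, hr', smul_smul, smul_smul, add_smul]
          abel
        smul_mem' := by
          rintro r _ ⟨h, hh, s, rfl⟩
          exact ⟨r • h, SMulMemClass.smul_mem r hh, r * s, by rw [smul_add, smul_smul]⟩ }
    have hmem : ∀ y, y ∈ H' ↔ ∃ h ∈ H, ∃ s : S, y = h + s • j x := fun y => Iff.rfl
    refine ⟨H', ?_, ?_, ?_⟩
    · ext T
      constructor
      · rintro ⟨y, hy, hTy⟩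
        obtain ⟨h, hh, s, rfl⟩ := (hmem y).mp hy
        refine ⟨h, hh, ?_⟩
        rcases hTy with hTy | hTy
        · left
          intro v
          rw [hTy, add_mul, smul_mul_assoc, h0, smul_zero, add_zero]
        · right
          intro v
          rw [hTy, mul_add, mul_smul_comm, h0, smul_zero, add_zero]
      · rintro ⟨h, hh, hTh⟩
        exact ⟨h, (hmem h).mpr ⟨h, hh, 0, by rw [zero_smul, add_zero]⟩, hTh⟩
    · rw [ht, hmem]
      exact ⟨0, zero_mem H, 1, by rw [one_smul, zero_add]⟩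
    · intro M hHM hxM
      rw [ht] at hxM
      apply le_antisymm
      · rintro y ⟨hy1, hy2⟩
        obtain ⟨h, hh, s, rfl⟩ := (hmem _).mp hy1
        have haM : s • j x ∈ M := by
          have := sub_mem hy2 (hHM hh)
          rwa [add_sub_cancel_left] at this
        have hs0 : f s = 0 := by
          by_contra hne
          apply hxM
          obtain ⟨r, hr⟩ := hf (f s)⁻¹
          have h1 : r • (s • j x) = j x := by
            rw [← hs, ← hs, smul_smul, hr, inv_mul_cancel₀ hne, one_smul]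
          rw [← h1]
          exact SMulMemClass.smul_mem r haM
        have h2 : s • j x = 0 := by
          rw [← hs, hs0, zero_smul, map_zero]
        rw [h2, add_zero]
        exact hh
      · intro y hy
        exact ⟨(hmem y).mpr ⟨y, hy, 0, by rw [zero_smul, add_zero]⟩, hHM hy⟩

/-- A nonzero ideal of square zero. -/
theorem algebra_square_zero (N : Submodule S A) (hl : ∀ a : A, ∀ n ∈ N, a * n ∈ N)
    (hr : ∀ a : A, ∀ n ∈ N, n * a ∈ N) (h0 : ∀ m ∈ N, ∀ n ∈ N, m * n = 0) (hne : N ≠ ⊥) :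
    ∃ M : NonUnitalSubalgebra S A, InfIrred M ∧
      2 * Nat.card {H // H ≤ M} ≤ Nat.card (NonUnitalSubalgebra S A) := by
  classical
  -- a simple submodule
  have hfin : Finite (Submodule S A) :=
    Finite.of_injective (fun H => (H : Set A)) SetLike.coe_injective
  obtain ⟨P, hPatom, hPN⟩ := (eq_bot_or_exists_atom_le N).resolve_left hne
  have hsimple : IsSimpleModule S P := isSimpleModule_iff_isAtom.mpr hPatom
  obtain ⟨m, hm, ⟨e⟩⟩ := isSimpleModule_iff_quot_maximal.mp hsimple
  have hmP : ∀ s ∈ m, ∀ x ∈ P, s • x = 0 := by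
    intro s hs x hx
    have h1 : s • (⟨x, hx⟩ : P) = 0 := by
      apply e.injective
      rw [map_smul, map_zero]
      obtain ⟨y, hy⟩ := Ideal.Quotient.mk_surjective (e ⟨x, hx⟩)
      rw [← hy, ← Ideal.Quotient.mk_eq_mk, ← Submodule.Quotient.mk_smul, smul_eq_mul,
        Submodule.Quotient.mk_eq_zero]
      exact m.mul_mem_right _ hs
    exact congrArg Subtype.val h1
  let W : Submodule S A :=
    { carrier := {x | x ∈ N ∧ ∀ s ∈ m, s • x = 0}
      add_mem' := by
        rintro x y ⟨hx, hx'⟩ ⟨hy, hy'⟩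
        exact ⟨N.add_mem hx hy, fun s hs => by rw [smul_add, hx' s hs, hy' s hs, add_zero]⟩
      zero_mem' := ⟨N.zero_mem, fun s _ => smul_zero s⟩
      smul_mem' := by
        rintro r x ⟨hx, hx'⟩
        exact ⟨N.smul_mem r hx, fun s hs => by rw [smul_comm, hx' s hs, smul_zero]⟩ }
  have hW : ∀ x, x ∈ W ↔ x ∈ N ∧ ∀ s ∈ m, s • x = 0 := fun x => Iff.rfl
  have htor : Module.IsTorsionBySet S W (m : Set S) := by
    rintro ⟨x, hx⟩ ⟨s, hs⟩
    exact Subtype.ext (((hW x).mp hx).2 s hs)
  let iF : Field (S ⧸ m) := Ideal.Quotient.field m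
  let iM : Module (S ⧸ m) W := htor.module
  have hmk : ∀ (s : S) (x : W), (Ideal.Quotient.mk m s) • x = s • x := fun s x => rfl
  have hnt : Nontrivial W := by
    obtain ⟨x, hx, hx0⟩ := (Submodule.ne_bot_iff P).mp hPatom.1
    refine ⟨⟨⟨x, (hW x).mpr ⟨hPN hx, fun s hs => hmP s hs x hx⟩⟩, 0, ?_⟩⟩
    intro h
    exact hx0 (congrArg Subtype.val h)
  refine algebra_vector (k := S ⧸ m) (V := W) (Ideal.Quotient.mk m) Ideal.Quotient.mk_surjective
    W.subtype.toAddMonoidHom Subtype.val_injective ?_ ?_ ?_ ?_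
  · intro s v
    rw [hmk]
    rfl
  · rintro a ⟨v, hv⟩
    exact ⟨⟨a * v, (hW _).mpr ⟨hl a v ((hW v).mp hv).1, fun s hs => by
      rw [← mul_smul_comm, ((hW v).mp hv).2 s hs, mul_zero]⟩⟩, rfl⟩
  · rintro a ⟨v, hv⟩
    exact ⟨⟨v * a, (hW _).mpr ⟨hr a v ((hW v).mp hv).1, fun s hs => by
      rw [← smul_mul_assoc, ((hW v).mp hv).2 s hs, zero_mul]⟩⟩, rfl⟩
  · rintro ⟨v, hv⟩ ⟨w, hw⟩
    exact h0 v ((hW v).mp hv).1 w ((hW w).mp hw).1

end

end Pool.Agent.H177.UC
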