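import Mathlib
import Pool.Agent.H177.UC.Algebra

set_option autoImplicit false

/-!
# Subalgebras of finite associative algebras
-/

namespace Pool.Agent.H177.UC

open Finset

universe u v w

variable {S : Type u} {A : Type v} [CommRing S] [NonUnitalRing A] [Module S A]
  [IsScalarTower S A A] [SMulCommClass S A A] [Finite A]

/-- the elements annihilated by `v` from the left -/
def annOf (S : Type u) {A : Type v} [CommRing S] [NonUnitalRing A] [Module S A]
    [IsScalarTower S A A] [SMulCommClass S A A] (v : A) : NonUnitalSubalgebra S A where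
  carrier := {a | v * a = 0}
  add_mem' := by
    intro a b ha hb
    change v * (a + b) = 0
    have ha' : v * a = 0 := ha
    have hb' : v * b = 0 := hb
    rw [mul_add, ha', hb', add_zero]
  zero_mem' := mul_zero v
  mul_mem' := by
    intro a b ha hb
    change v * (a * b) = 0
    have ha' : v * a = 0 := ha
    rw [← mul_assoc, ha', zero_mul]
  smul_mem' := by
    intro s a ha
    change v * (s • a) = 0
    have ha' : v * a = 0 := ha
    rw [mul_smul_comm, ha', smul_zero]

omit [Finite A] in
theorem mem_annOf {v a : A} : a ∈ annOf S v ↔ v * a = 0 := Iff.rfl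

theorem infIrred_annOf (V : Submodule S A)
    (hVr : ∀ v ∈ V, ∀ a : A, v * a ∈ V)
    (hF0 : ∀ n : A, (∀ b, n * b = 0) → n = 0)
    (hF1 : ∀ v ∈ V, v ≠ 0 → ∀ w ∈ V, ∃ a, v * a = w)
    {v : A} (hv : v ∈ V) (hv0 : v ≠ 0) : InfIrred (annOf S v) := by
  obtain ⟨c0, hc0⟩ := hF1 v hv hv0 v hv
  have hc0n : c0 ∉ annOf S v := by
    rw [mem_annOf, hc0]
    exact hv0
  have key : ∀ B : NonUnitalSubalgebra S A, annOf S v < B → c0 ∈ B := by
    intro B hB
    obtain ⟨hle, b, hbB, hbv⟩ := SetLike.lt_iff_le_and_exists.mp hB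
    rw [mem_annOf] at hbv
    by_cases hcase : ∃ b1 ∈ B, ∃ m, v * m = 0 ∧ v * (b1 * m) ≠ 0
    · obtain ⟨b1, hb1, m, hm, hne⟩ := hcase
      have hwV : v * (b1 * m) ∈ V := hVr v hv _
      obtain ⟨a', ha'⟩ := hF1 _ hwV hne v hv
      have h1 : m * a' ∈ B := hle (by rw [mem_annOf, ← mul_assoc, hm, zero_mul])
      have h2 : c0 - b1 * (m * a') ∈ B := hle (by
        rw [mem_annOf, mul_sub, hc0, sub_eq_zero]
        rw [← mul_assoc b1, ← mul_assoc v, ha'])
      have h3 := add_mem h2 (mul_mem hb1 h1)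
      rwa [sub_add_cancel] at h3
    · push Not at hcase
      have hb0 : ∀ a, v * a = 0 → v * b * a = 0 := by
        intro a ha
        rw [mul_assoc]
        exact hcase b hbB a ha
      have hbc : v * b * c0 = v * b := by
        have : v * b - v * b * c0 = 0 := by
          apply hF0
          intro a
          have h1 : v * (a - c0 * a) = 0 := by
            rw [mul_sub, ← mul_assoc, hc0, sub_self]
          have h2 := hb0 _ h1
          rw [sub_mul, mul_assoc (v * b) c0 a, ← mul_sub]
          exact h2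
        exact (sub_eq_zero.mp this).symm
      have hinj : ∀ a, v * b * a = 0 → v * a = 0 := by
        intro a ha
        by_contra hne
        obtain ⟨a1, ha1⟩ := hF1 _ (hVr v hv a) hne v hv
        have h1 : v * (a * a1 - c0) = 0 := by
          rw [mul_sub, ← mul_assoc, ha1, hc0, sub_self]
        have h2 := hb0 _ h1
        rw [mul_sub, ← mul_assoc (v * b) a a1, ha, zero_mul, hbc, zero_sub, neg_eq_zero] at h2
        exact hbv h2
      -- powers of `b`
      let P : ℕ → A := fun n => Nat.rec b (fun _ y => b * y) n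
      have hP0 : P 0 = b := rfl
      have hPs : ∀ n, P (n + 1) = b * P n := fun n => rfl
      have hPB : ∀ n, P n ∈ B := by
        intro n
        induction n with
        | zero => exact hbB
        | succ n ih => rw [hPs]; exact mul_mem hbB ih
      obtain ⟨i, j, hij, hPij⟩ := Finite.exists_ne_map_eq_of_infinite (fun n : ℕ => v * P n)
      have hdesc : ∀ i d, v * P i = v * P (i + d) → v * P 0 = v * P d := by
        intro i
        induction i with
        | zero => intro d h; rwa [zero_add] at h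
        | succ i ih =>
          intro d h
          apply ih
          have h1 : i + 1 + d = (i + d) + 1 := by omega
          rw [h1, hPs, hPs, ← mul_assoc, ← mul_assoc, ← sub_eq_zero, ← mul_sub] at h
          have h2 := hinj _ h
          rw [mul_sub, sub_eq_zero] at h2
          exact h2
      have hfin : ∃ e, v * P 0 = v * P (e + 1) := by
        rcases lt_or_gt_of_ne hij with h | h
        · obtain ⟨d, rfl⟩ := Nat.exists_eq_add_of_lt h
          exact ⟨d, hdesc i (d + 1) hPij⟩
        · obtain ⟨d, rfl⟩ := Nat.exists_eq_add_of_lt h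
          exact ⟨d, hdesc j (d + 1) hPij.symm⟩
      obtain ⟨e, he⟩ := hfin
      have h4 : v * (c0 - P e) = 0 := by
        apply hinj
        rw [mul_sub, hbc, sub_eq_zero, mul_assoc, ← hPs, ← he, hP0]
      have h5 : c0 - P e ∈ B := hle (mem_annOf.mpr h4)
      have h6 := add_mem h5 (hPB e)
      rwa [sub_add_cancel] at h6
  constructor
  · intro h
    exact hc0n ((h le_top) (trivial : c0 ∈ (⊤ : NonUnitalSubalgebra S A)))
  · intro b c hbc
    by_contra hcon
    push Not at hcon
    have hb : annOf S v < b := lt_of_le_of_ne (hbc ▸ inf_le_left) (Ne.symm hcon.1)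
    have hc : annOf S v < c := lt_of_le_of_ne (hbc ▸ inf_le_right) (Ne.symm hcon.2)
    apply hc0n
    rw [← hbc]
    exact ⟨key b hb, key c hc⟩

/-- All finite associative algebras. -/
theorem algebra_assoc [Nontrivial A] :
    ∃ M : NonUnitalSubalgebra S A, InfIrred M ∧
      2 * Nat.card {H // H ≤ M} ≤ Nat.card (NonUnitalSubalgebra S A) := by
  classical
  have hfinL : Finite (NonUnitalSubalgebra S A) :=
    Finite.of_injective (fun H => (H : Set A)) SetLike.coe_injective
  have hfin : Finite (Submodule S A) :=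
    Finite.of_injective (fun H => (H : Set A)) SetLike.coe_injective
  by_cases hN : ∃ N : Submodule S A, (∀ a : A, ∀ n ∈ N, a * n ∈ N) ∧
      (∀ a : A, ∀ n ∈ N, n * a ∈ N) ∧ (∀ m ∈ N, ∀ n ∈ N, m * n = 0) ∧ N ≠ ⊥
  · obtain ⟨N, h1, h2, h3, h4⟩ := hN
    exact algebra_square_zero N h1 h2 h3 h4
  have hsp : ∀ N : Submodule S A, (∀ a : A, ∀ n ∈ N, a * n ∈ N) →
      (∀ a : A, ∀ n ∈ N, n * a ∈ N) → (∀ m ∈ N, ∀ n ∈ N, m * n = 0) → N = ⊥ := by
    intro N h1 h2 h3
    by_contra h4
    exact hN ⟨N, h1, h2, h3, h4⟩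
  have hF0 : ∀ n : A, (∀ b, n * b = 0) → n = 0 := by
    let Z : Submodule S A :=
      { carrier := {n | ∀ b, n * b = 0}
        add_mem' := by
          intro x y hx hy b
          rw [add_mul, hx b, hy b, add_zero]
        zero_mem' := fun b => zero_mul b
        smul_mem' := by
          intro s x hx b
          rw [smul_mul_assoc, hx b, smul_zero] }
    have hZ : ∀ x, x ∈ Z ↔ ∀ b, x * b = 0 := fun x => Iff.rfl
    have : Z = ⊥ := by
      apply hsp
      · intro a n hn
        rw [hZ] at hn ⊢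
        intro b
        rw [mul_assoc, hn b, mul_zero]
      · intro a n hn
        rw [hZ] at hn ⊢
        intro b
        rw [mul_assoc]
        exact hn _
      · intro m hm n _
        exact (hZ m).mp hm n
    intro n hn
    have h : n ∈ Z := (hZ n).mpr hn
    rwa [this, Submodule.mem_bot] at h
  obtain ⟨V, hV⟩ := Set.Finite.exists_minimal
    (Set.toFinite {V : Submodule S A | V ≠ ⊥ ∧ ∀ v ∈ V, ∀ a : A, v * a ∈ V})
    ⟨⊤, top_ne_bot, fun v _ a => trivial⟩
  have hVne : V ≠ ⊥ := hV.prop.1
  have hVr : ∀ v ∈ V, ∀ a : A, v * a ∈ V := hV.prop.2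
  have hVmin : ∀ W : Submodule S A, W ≤ V → (∀ v ∈ W, ∀ a : A, v * a ∈ W) → W ≠ ⊥ → W = V := by
    intro W hWV hW hWne
    exact le_antisymm hWV (hV.le_of_le ⟨hWne, hW⟩ hWV)
  have hF1 : ∀ v ∈ V, v ≠ 0 → ∀ w ∈ V, ∃ a, v * a = w := by
    intro v hv hv0
    let W : Submodule S A :=
      { carrier := {w | ∃ a, v * a = w}
        add_mem' := by
          rintro _ _ ⟨a, rfl⟩ ⟨b, rfl⟩
          exact ⟨a + b, mul_add _ _ _⟩
        zero_mem' := ⟨0, mul_zero v⟩
        smul_mem' := by
          rintro s _ ⟨a, rfl⟩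
          exact ⟨s • a, mul_smul_comm _ _ _⟩ }
    have hW : ∀ w, w ∈ W ↔ ∃ a, v * a = w := fun w => Iff.rfl
    have : W = V := by
      apply hVmin
      · intro w hw
        obtain ⟨a, rfl⟩ := (hW w).mp hw
        exact hVr v hv a
      · intro w hw b
        obtain ⟨a, rfl⟩ := (hW w).mp hw
        exact (hW _).mpr ⟨a * b, (mul_assoc _ _ _).symm⟩
      · intro h
        apply hv0
        apply hF0
        intro b
        have : v * b ∈ W := (hW _).mpr ⟨b, rfl⟩
        rwa [h, Submodule.mem_bot] at this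
    intro w hw
    rw [← this] at hw
    exact (hW w).mp hw
  -- the annihilator of `V` and its annihilator
  let I : Submodule S A :=
    { carrier := {a | ∀ v ∈ V, v * a = 0}
      add_mem' := by
        intro x y hx hy v hv
        rw [mul_add, hx v hv, hy v hv, add_zero]
      zero_mem' := fun v _ => mul_zero v
      smul_mem' := by
        intro s x hx v hv
        rw [mul_smul_comm, hx v hv, smul_zero] }
  have hI : ∀ a, a ∈ I ↔ ∀ v ∈ V, v * a = 0 := fun a => Iff.rfl
  have hIl : ∀ a : A, ∀ x ∈ I, a * x ∈ I := by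
    intro a x hx
    rw [hI] at hx ⊢
    intro v hv
    rw [← mul_assoc]
    exact hx _ (hVr v hv a)
  have hIr : ∀ a : A, ∀ x ∈ I, x * a ∈ I := by
    intro a x hx
    rw [hI] at hx ⊢
    intro v hv
    rw [← mul_assoc, hx v hv, zero_mul]
  let N : NonUnitalSubalgebra S A :=
    { carrier := {n | ∀ a ∈ I, n * a = 0}
      add_mem' := by
        intro x y hx hy a ha
        rw [add_mul, hx a ha, hy a ha, add_zero]
      zero_mem' := fun a _ => zero_mul a
      mul_mem' := by
        intro x y hx hy a ha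
        rw [mul_assoc, hy a ha, mul_zero]
      smul_mem' := by
        intro s x hx a ha
        rw [smul_mul_assoc, hx a ha, smul_zero] }
  have hN' : ∀ n, n ∈ N ↔ ∀ a ∈ I, n * a = 0 := fun n => Iff.rfl
  have hNl : ∀ b : A, ∀ n ∈ N, b * n ∈ N := by
    intro b n hn
    rw [hN'] at hn ⊢
    intro a ha
    rw [mul_assoc, hn a ha, mul_zero]
  have hNr : ∀ b : A, ∀ n ∈ N, n * b ∈ N := by
    intro b n hn
    rw [hN'] at hn ⊢
    intro a ha
    rw [mul_assoc]
    exact hn _ (hIl b a ha)
  have hVN : ∀ v ∈ V, v ∈ N := by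
    intro v hv
    rw [hN']
    intro a ha
    exact (hI a).mp ha v hv
  have hNI : ∀ x, x ∈ N → x ∈ I → x = 0 := by
    have : (N.toSubmodule ⊓ I) = ⊥ := by
      apply hsp
      · rintro a n ⟨h1, h2⟩
        exact ⟨hNl a n h1, hIl a n h2⟩
      · rintro a n ⟨h1, h2⟩
        exact ⟨hNr a n h1, hIr a n h2⟩
      · rintro m ⟨h1, _⟩ n ⟨_, h2⟩
        exact (hN' m).mp h1 n h2
    intro x h1 h2
    have h : x ∈ N.toSubmodule ⊓ I := ⟨h1, h2⟩
    rwa [this, Submodule.mem_bot] at h
  have hvN : ∀ v ∈ V, v ≠ 0 → ∃ n ∈ N, v * n ≠ 0 := by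
    intro v hv hv0
    by_contra hcon
    push Not at hcon
    -- then all of `V` is annihilated by `N`
    have h1 : ∀ w ∈ V, ∀ n ∈ N, w * n = 0 := by
      intro w hw n hn
      obtain ⟨a, rfl⟩ := hF1 v hv hv0 w hw
      rw [mul_assoc]
      exact hcon _ (hNl a n hn)
    apply hv0
    apply hNI v (hVN v hv)
    rw [hI]
    intro w hw
    exact h1 w hw v (hVN v hv)
  -- adding `N`
  let addN : NonUnitalSubalgebra S A → NonUnitalSubalgebra S A := fun H =>
    { carrier := {y | ∃ h ∈ H, ∃ n ∈ N, y = h + n}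
      add_mem' := by
        rintro _ _ ⟨h, hh, n, hn, rfl⟩ ⟨h', hh', n', hn', rfl⟩
        exact ⟨h + h', add_mem hh hh', n + n', add_mem hn hn', by abel⟩
      zero_mem' := ⟨0, zero_mem H, 0, zero_mem N, (add_zero 0).symm⟩
      mul_mem' := by
        rintro _ _ ⟨h, hh, n, hn, rfl⟩ ⟨h', hh', n', hn', rfl⟩
        refine ⟨h * h', mul_mem hh hh', h * n' + n * (h' + n'),
          add_mem (hNl h n' hn') (hNr _ n hn), ?_⟩
        rw [add_mul, mul_add h]
        abel
      smul_mem' := by
        rintro s _ ⟨h, hh, n, hn, rfl⟩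
        exact ⟨s • h, SMulMemClass.smul_mem s hh, s • n, SMulMemClass.smul_mem s hn,
          smul_add _ _ _⟩ }
  have haddN : ∀ H y, y ∈ addN H ↔ ∃ h ∈ H, ∃ n ∈ N, y = h + n := fun H y => Iff.rfl
  have hNadd : ∀ H, N ≤ addN H := fun H n hn => (haddN H n).mpr
    ⟨0, zero_mem H, n, hn, (zero_add n).symm⟩
  have hinj : ∀ H : NonUnitalSubalgebra S A, (∀ h ∈ H, h ∈ I) →
      ∀ x, x ∈ H ↔ x ∈ addN H ∧ x ∈ I := by
    intro H hH x
    constructor
    · intro hx
      exact ⟨(haddN H x).mpr ⟨x, hx, 0, zero_mem N, (add_zero x).symm⟩, hH x hx⟩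
    · rintro ⟨hx1, hx2⟩
      obtain ⟨h, hh, n, hn, rfl⟩ := (haddN H x).mp hx1
      have h1 : n ∈ I := by
        have := I.sub_mem hx2 (hH h hh)
        rwa [add_sub_cancel_left] at this
      rw [hNI n hn h1, add_zero]
      exact hh
  obtain ⟨v0, hv0V, hv00⟩ := (Submodule.ne_bot_iff V).mp hVne
  have hneI : Nonempty {v : A // v ∈ V ∧ v ≠ 0} := ⟨⟨v0, hv0V, hv00⟩⟩
  obtain ⟨⟨v, hvV, hv0⟩, hv⟩ := double_count
    (fun v : {v : A // v ∈ V ∧ v ≠ 0} => annOf S v.1)
    {H | (∀ h ∈ H, h ∈ I) ∨ ∃ H0 : NonUnitalSubalgebra S A, (∀ h ∈ H0, h ∈ I) ∧ H = addN H0}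
    (by
      rintro ⟨v, hvV, hv0⟩
      obtain ⟨n, hn, hvn⟩ := hvN v hvV hv0
      have hstep : ∀ H : {H : NonUnitalSubalgebra S A // H ∈ {H | (∀ h ∈ H, h ∈ I) ∨
          ∃ H0 : NonUnitalSubalgebra S A, (∀ h ∈ H0, h ∈ I) ∧ H = addN H0} ∧ H ≤ annOf S v},
          ∀ h ∈ H.1, h ∈ I := by
        rintro ⟨H, hH1 | ⟨H0, hH0, rfl⟩, hH2⟩
        · exact hH1
        · exact absurd (mem_annOf.mp (hH2 (hNadd H0 hn))) hvn
      apply Nat.card_le_card_of_injective (fun H => (⟨addN H.1, Or.inr ⟨H.1, hstep H, rfl⟩,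
        fun h => hvn (mem_annOf.mp (h (hNadd H.1 hn)))⟩ :
        {H : NonUnitalSubalgebra S A // H ∈ {H | (∀ h ∈ H, h ∈ I) ∨
          ∃ H0 : NonUnitalSubalgebra S A, (∀ h ∈ H0, h ∈ I) ∧ H = addN H0} ∧ ¬ H ≤ annOf S v}))
      intro H1 H2 h12
      have h : addN H1.1 = addN H2.1 := congrArg Subtype.val h12
      apply Subtype.ext
      ext x
      rw [hinj _ (hstep H1), hinj _ (hstep H2), h])
    (by
      intro H hH
      have hH' : ¬ ∀ h ∈ H, h ∈ I := fun h => hH (Or.inl h)
      push Not at hH'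
      obtain ⟨h, hhH, hhI⟩ := hH'
      rw [hI] at hhI
      push Not at hhI
      obtain ⟨v1, hv1, hv1h⟩ := hhI
      let K : AddSubgroup V :=
        { carrier := {v | ∀ h ∈ H, (v : A) * h = 0}
          add_mem' := by
            intro a b ha hb h hh
            rw [Submodule.coe_add, add_mul, ha h hh, hb h hh, add_zero]
          zero_mem' := fun h _ => zero_mul h
          neg_mem' := by
            intro a ha h hh
            rw [Submodule.coe_neg, neg_mul, ha h hh, neg_zero] }
      have hK : ∀ v, v ∈ K ↔ ∀ h ∈ H, (v : A) * h = 0 := fun v => Iff.rfl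
      have hKtop : K ≠ ⊤ := by
        intro htop
        have : (⟨v1, hv1⟩ : V) ∈ K := by rw [htop]; trivial
        exact hv1h ((hK _).mp this h hhH)
      have h1 := two_mul_card_le K hKtop
      have h2 : Nat.card {v : {v : A // v ∈ V ∧ v ≠ 0} // H ≤ annOf S v.1} + 1 ≤ Nat.card K := by
        have : Nat.card (Option {v : {v : A // v ∈ V ∧ v ≠ 0} // H ≤ annOf S v.1}) ≤
            Nat.card K := by
          apply Nat.card_le_card_of_injective (fun o => match o with
            | none => (⟨0, K.zero_mem⟩ : K)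
            | some w => ⟨⟨w.1.1, w.1.2.1⟩, fun h hh => mem_annOf.mp (w.2 hh)⟩)
          intro a b hab
          match a, b with
          | none, none => rfl
          | none, some w =>
            exfalso
            have h5 := congrArg Subtype.val (congrArg Subtype.val hab)
            exact w.1.2.2 h5.symm
          | some w, none =>
            exfalso
            have h5 := congrArg Subtype.val (congrArg Subtype.val hab)
            exact w.1.2.2 h5
          | some w, some w' =>
            have h5 := congrArg Subtype.val (congrArg Subtype.val hab)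
            congr 1
            exact Subtype.ext (Subtype.ext h5)
        rwa [Finite.card_option] at this
      have h3 : Nat.card {v : A // v ∈ V ∧ v ≠ 0} + 1 = Nat.card V := by
        have e : {v : A // v ∈ V ∧ v ≠ 0} ≃ {v : V // v ≠ 0} :=
          { toFun := fun v => ⟨⟨v.1, v.2.1⟩, fun h => v.2.2 (congrArg Subtype.val h)⟩
            invFun := fun v => ⟨v.1.1, v.1.2, fun h => v.2 (Subtype.ext h)⟩
            left_inv := fun _ => rfl
            right_inv := fun _ => rfl }
        rw [Nat.card_congr e, ← Finite.card_option]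
        exact Nat.card_congr (Equiv.optionSubtypeNe (0 : V))
      omega)
  exact ⟨annOf S v, infIrred_annOf V hVr hF0 hF1 hvV hv0, hv⟩

end Pool.Agent.H177.UC
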