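import Mathlib
import Pool.Agent.H177.UC.Algebra

set_option autoImplicit false

/-!
# Lie subalgebras of finite Lie algebras with nonzero radical
-/

namespace Pool.Agent.H177.UC

universe u v w

/-- Transport along an order isomorphism. -/
theorem transport {L L' : Type*} [Lattice L] [Lattice L'] (e : L ≃o L')
    (h : ∃ M : L, InfIrred M ∧ 2 * Nat.card {H // H ≤ M} ≤ Nat.card L) :
    ∃ M : L', InfIrred M ∧ 2 * Nat.card {H // H ≤ M} ≤ Nat.card L' := by
  obtain ⟨M, ⟨h1, h2⟩, h3⟩ := h
  refine ⟨e M, ⟨?_, ?_⟩, ?_⟩
  · intro hmax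
    apply h1
    intro b hb
    have := hmax (e.le_iff_le.mpr hb)
    exact e.le_iff_le.mp this
  · intro b c hbc
    have h4 : e.symm b ⊓ e.symm c = M := by
      rw [← map_inf, hbc, e.symm_apply_apply]
    rcases h2 h4 with h | h
    · left
      rw [← h, e.apply_symm_apply]
    · right
      rw [← h, e.apply_symm_apply]
  · have h5 : Nat.card {H : L' // H ≤ e M} = Nat.card {H : L // H ≤ M} := by
      symm
      apply Nat.card_congr
      exact e.toEquiv.subtypeEquiv (fun a => (e.le_iff_le).symm)
    rw [h5, ← Nat.card_congr e.toEquiv]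
    exact h3

variable {S : Type u} {A : Type v} [CommRing S] [LieRing A] [LieAlgebra S A]

/-- Lie subalgebras are the subalgebras of the nonassociative ring. -/
def lieIso (S : Type u) (A : Type v) [CommRing S] [LieRing A] [LieAlgebra S A] :
    NonUnitalSubalgebra S (CommutatorRing A) ≃o LieSubalgebra S A where
  toFun H :=
    { carrier := {a : A | (show CommutatorRing A from a) ∈ H}
      add_mem' := fun {a b} ha hb => add_mem (S := NonUnitalSubalgebra S (CommutatorRing A)) ha hb
      zero_mem' := zero_mem H
      smul_mem' := fun s a ha => H.smul_mem' s ha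
      lie_mem' := fun {a b} ha hb =>
        mul_mem (S := NonUnitalSubalgebra S (CommutatorRing A)) ha hb }
  invFun H :=
    { carrier := {a : CommutatorRing A | (show A from a) ∈ H}
      add_mem' := fun {a b} ha hb => add_mem (S := LieSubalgebra S A) ha hb
      zero_mem' := zero_mem H
      smul_mem' := fun s a ha => H.smul_mem s ha
      mul_mem' := fun {a b} ha hb => H.lie_mem ha hb }
  left_inv _ := rfl
  right_inv _ := rfl
  map_rel_iff' := Iff.rfl

/-- Finite Lie algebras with nonzero radical. -/
theorem lie_radical [Finite A] (hrad : LieAlgebra.radical S A ≠ ⊥) :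
    ∃ M : LieSubalgebra S A, InfIrred M ∧
      2 * Nat.card {H // H ≤ M} ≤ Nat.card (LieSubalgebra S A) := by
  have : ¬ LieAlgebra.HasTrivialRadical S A := fun h => hrad h.radical_eq_bot
  rw [LieAlgebra.hasTrivialRadical_iff_no_abelian_ideals] at this
  push Not at this
  obtain ⟨I, hI, hI0⟩ := this
  have hfin : Finite (CommutatorRing A) := inferInstanceAs (Finite A)
  apply transport (lieIso S A)
  let N : Submodule S (CommutatorRing A) :=
    { carrier := {a : CommutatorRing A | (show A from a) ∈ I}
      add_mem' := fun {a b} ha hb => add_mem (S := LieIdeal S A) ha hb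
      zero_mem' := zero_mem I
      smul_mem' := fun s a ha => I.smul_mem s ha }
  apply algebra_square_zero N
  · intro a n hn
    exact lie_mem_right S A I a n hn
  · intro a n hn
    exact lie_mem_left S A I n a hn
  · intro m hm n hn
    have h1 : ⁅(⟨m, hm⟩ : I), (⟨n, hn⟩ : I)⁆ = 0 := trivial_lie_zero I I _ _
    exact congrArg Subtype.val h1
  · intro h
    apply hI0
    rw [eq_bot_iff]
    intro x hx
    have h1 : (show CommutatorRing A from x) ∈ N := hx
    rw [h, Submodule.mem_bot] at h1
    rw [LieSubmodule.mem_bot]
    exact h1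

end Pool.Agent.H177.UC
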